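import Pool.Agent.H72.Bp.Asy

/-!
# The choice of the parameters, sharp version
-/

set_option autoImplicit false

namespace Pool.Agent.H24.DcG

open Finset
open scoped Nat
open Pool.Agent.H72.Bp (asy_cnt)

theorem asy_main {G cnt s : ℕ} (hG : 0 < G) (h : (32 * G)! ≤ cnt * 2 ^ (16 * G))
    (h2 : cnt ^ (32 * G - 1) * ((32 * G - 1) * (32 * G) + 1) ^ ((32 * G - 1) * (32 * G) + 1) ≤
      (11 * s) ^ ((32 * G - 1) * (32 * G) + 1)) : 360 * G ^ 3 ≤ s := by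
  have h1 := asy_cnt h
  set m := (32 * G - 1) * (32 * G) with hm
  have hm1 : 992 * G ^ 2 ≤ m := by
    calc 992 * G ^ 2 = (31 * G) * (32 * G) := by ring
      _ ≤ m := Nat.mul_le_mul_right _ (by omega)
  have h3 : (8 * G) ^ m * (m + 1) ^ (m + 1) ≤ (11 * s) ^ (m + 1) := by
    refine le_trans (Nat.mul_le_mul_right _ ?_) h2
    calc (8 * G) ^ m = ((8 * G) ^ (32 * G)) ^ (32 * G - 1) := by
          rw [← pow_mul, hm, mul_comm (32 * G)]
      _ ≤ cnt ^ (32 * G - 1) := Nat.pow_le_pow_left h1 _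
  have h4 : 8 * G ≤ 2 ^ (m + 1) := by
    have h5 : 8 * G ≤ m + 1 := by
      calc 8 * G ≤ 8 * G * (124 * G) := Nat.le_mul_of_pos_right _ (by omega)
        _ = 992 * G ^ 2 := by ring
        _ ≤ m + 1 := by omega
    exact h5.trans Nat.lt_two_pow_self.le
  have h5 : (8 * G * (m + 1)) ^ (m + 1) ≤ (22 * s) ^ (m + 1) := by
    calc (8 * G * (m + 1)) ^ (m + 1) = (8 * G) * ((8 * G) ^ m * (m + 1) ^ (m + 1)) := by
          rw [mul_pow, pow_succ (8 * G) m]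
          ring
      _ ≤ 2 ^ (m + 1) * (11 * s) ^ (m + 1) := Nat.mul_le_mul h4 h3
      _ = (22 * s) ^ (m + 1) := by
          rw [← mul_pow]
          congr 1
          ring
  have h6 : 8 * G * (m + 1) ≤ 22 * s := (Nat.pow_le_pow_iff_left (by omega)).1 h5
  have h7 : 8 * G * (992 * G ^ 2) ≤ 8 * G * (m + 1) := Nat.mul_le_mul_left _ (by omega)
  have h8 : 8 * G * (992 * G ^ 2) = 7936 * G ^ 3 := by ring
  omega

/-- The size of the gadget. -/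
def sz (r : ℕ) : ℕ :=
  2 * 2 ^ r + r + r * (5 * (2 * 2 ^ r + 2 * r)) + (2 * 2 ^ r + 2 * r) + ((2 ^ r / 2 + 1) + r)

theorem sz_five (r : ℕ) (hr : 5 ≤ r) :
    sz (r + 1) ≤ 903 * 2 ^ (r - 5) * r := by
  obtain ⟨q, rfl⟩ := Nat.exists_eq_add_of_le hr
  have h1 : 2 ^ (5 + q + 1) = 64 * 2 ^ q := by rw [pow_succ, pow_add]; ring
  have h2 : 64 * 2 ^ q / 2 = 32 * 2 ^ q := by omega
  rw [sz, h1, h2, Nat.add_sub_cancel_left]
  have h3 : q + 1 ≤ 2 ^ q := Nat.lt_two_pow_self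
  generalize 2 ^ q = G at h3
  obtain ⟨z, rfl⟩ := Nat.exists_eq_add_of_le h3
  nlinarith [Nat.zero_le z, Nat.zero_le q, Nat.zero_le (q * z), Nat.zero_le (q * q)]

theorem choose_r (n : ℕ) (hn : 2048 ≤ n) : ∃ r : ℕ, 5 ≤ r ∧ sz r ≤ n ∧ n ≤ 903 * 2 ^ (r - 5) * r ∧
    r ≤ Nat.log 2 n := by
  classical
  have hle : ∀ r, 2 ^ r ≤ sz r := by
    intro r
    rw [sz]
    omega
  have hb : ∀ r, sz r ≤ n → r ≤ n := by
    intro r h
    exact (Nat.lt_two_pow_self (n := r)).le.trans ((hle r).trans h)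
  have h5 : sz 5 ≤ n := by
    have : sz 5 = 2015 := by decide
    omega
  set r := Nat.findGreatest (fun r => sz r ≤ n) n with hr
  have h1 : sz r ≤ n := Nat.findGreatest_spec (P := fun r => sz r ≤ n) (hb 5 h5) h5
  have h2 : 5 ≤ r := Nat.le_findGreatest (hb 5 h5) h5
  have h3 : n < sz (r + 1) := by
    by_contra hcon
    push Not at hcon
    have := Nat.le_findGreatest (P := fun r => sz r ≤ n) (hb _ hcon) hcon
    rw [← hr] at this
    omega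
  refine ⟨r, h2, h1, h3.le.trans (sz_five r h2), ?_⟩
  exact Nat.le_log_of_pow_le (by norm_num) ((hle r).trans h1)

theorem final_nat {n r s : ℕ} (h3 : n ≤ 903 * 2 ^ (r - 5) * r)
    (h4 : r ≤ Nat.log 2 n) (h5 : 360 * (2 ^ (r - 5)) ^ 3 ≤ s) :
    n ^ 3 ≤ 10 ^ 7 * (Nat.log 2 n) ^ 3 * s := by
  generalize 2 ^ (r - 5) = G at h3 h5
  calc n ^ 3 ≤ (903 * G * r) ^ 3 := Nat.pow_le_pow_left h3 _
    _ = 903 ^ 3 * r ^ 3 * G ^ 3 := by ring
    _ ≤ (10 ^ 7 * 360) * r ^ 3 * G ^ 3 := by gcongr; norm_num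
    _ = 10 ^ 7 * r ^ 3 * (360 * G ^ 3) := by ring
    _ ≤ 10 ^ 7 * (Nat.log 2 n) ^ 3 * s := by gcongr

theorem small_nat {n s : ℕ} (hn : 2 ≤ n) (hn' : n < 2048) (hs : 1 ≤ s) :
    n ^ 3 ≤ 10 ^ 7 * (Nat.log 2 n) ^ 3 * s := by
  have h1 : 1 ≤ Nat.log 2 n := Nat.le_log_of_pow_le (by norm_num) (by simpa using hn)
  have h2 : Nat.log 2 n < 11 := Nat.log_lt_of_lt_pow (by omega) (by simpa using hn')
  have h3 : n < 2 ^ (Nat.log 2 n + 1) := Nat.lt_pow_succ_log_self (by norm_num) n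
  generalize Nat.log 2 n = L at h1 h2 h3
  have h4 : n ^ 3 ≤ (2 ^ (L + 1)) ^ 3 := Nat.pow_le_pow_left h3.le _
  have h5 : (2 ^ (L + 1)) ^ 3 ≤ 10 ^ 7 * L ^ 3 := by
    interval_cases L <;> norm_num
  calc n ^ 3 ≤ 10 ^ 7 * L ^ 3 := h4.trans h5
    _ ≤ 10 ^ 7 * L ^ 3 * s := Nat.le_mul_of_pos_right _ hs

end Pool.Agent.H24.DcG
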