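import Pool.Agent.H24.DcG.Dum
import Pool.Agent.H72.Bp.Gad

/-!
The sharp gadget: `2 ^ r` copies of an elementary symmetric polynomial in `2 ^ r` variables in a
permanent of size `O(r 2 ^ r)`.
-/

set_option autoImplicit false

namespace Pool.Agent.H24.DcG

open Finset MvPolynomial
open scoped Nat
open Pool.Agent.H10.PerSL (es)
open Pool.Agent.PerSL2 Pool.Agent.H72.Bp

universe u

theorem fr_scale {R : Type u} [CommRing R] {ρ κ P : Type} [Fintype ρ] [DecidableEq ρ] [Fintype κ]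
    [DecidableEq κ] [Fintype P] [DecidableEq P] (k : ℕ) (A : ρ ⊕ P → κ ⊕ P → R) (u : R)
    (a b : P → R) :
    pm (fr k A (fun p => u * a p) b) = u ^ k * pm (fr k A a b) := by
  have h := pm_scale (fr k A a b) (Sum.elim (fun _ => 1) (fun _ => u)) (fun _ => 1)
  have h2 : (fun (r : (ρ ⊕ P) ⊕ Fin k) (c : (κ ⊕ P) ⊕ Fin k) =>
      (Sum.elim (fun _ => 1) (fun _ => u) : (ρ ⊕ P) ⊕ Fin k → R) r * fr k A a b r c * 1) =
      fr k A (fun p => u * a p) b := by
    funext r c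
    rcases r with ((r | p) | s) <;> rcases c with ((c | p') | s') <;> simp [fr]
  rw [h2] at h
  rw [h]
  simp [Fintype.prod_sum_type]

/-- The positions. -/
abbrev Po (r : ℕ) : Type := Fin 1 → Fin (2 * 2 ^ r)

/-- The states. -/
abbrev St (r : ℕ) : Type := Fin 1 → Fin (2 ^ r)

/-- The number with the binary digits `q`. -/
def num {r : ℕ} (q : Fin r → Fin 2) : ℕ := ∑ l, (q l : ℕ) * 2 ^ (l : ℕ)

theorem num_lt {r : ℕ} (q : Fin r → Fin 2) : num q < 2 ^ r := by
  have h := (finFunctionFinEquiv q : Fin (2 ^ r)).2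
  rw [finFunctionFinEquiv_apply] at h
  exact h

/-- The state of the digits. -/
def stE (r : ℕ) : (Fin r → Fin 2) ≃ St r :=
  finFunctionFinEquiv.trans (Equiv.funUnique (Fin 1) (Fin (2 ^ r))).symm

theorem stE_apply {r : ℕ} (q : Fin r → Fin 2) (l : Fin 1) : ((stE r q l : Fin (2 ^ r)) : ℕ) = num q := by
  show ((finFunctionFinEquiv q : Fin (2 ^ r)) : ℕ) = _
  rw [finFunctionFinEquiv_apply]
  rfl

section pot

variable {R : Type u} [CommRing R]

/-- The weights of the rows. -/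
def al (k : ℕ) {r : ℕ} (t : R) (l : Fin r) (x : Fin 2) : Po r ⊕ (Fin r ⊕ Fin r) → R
  | Sum.inl i => t ^ (2 * ((x : ℕ) * 2 ^ (l : ℕ)) * i 0)
  | Sum.inr (Sum.inl e) => if e = l ∧ x = 1 then 0 else 1
  | Sum.inr (Sum.inr e) => if e = l ∧ x = 0 then 0 else t ^ (k * 2 ^ (e : ℕ) * ((x : ℕ) * 2 ^ (l : ℕ)))

/-- The weights of the columns. -/
def be {r : ℕ} (t : R) (l : Fin r) (x : Fin 2) : Po r ⊕ (Fin r ⊕ Fin r) → R
  | Sum.inl c => t ^ (4 * (2 ^ r) ^ 2 - 2 * ((x : ℕ) * 2 ^ (l : ℕ)) * c 0)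
  | Sum.inr _ => 1

theorem al_inl (k : ℕ) {r : ℕ} (t : R) (q : Fin r → Fin 2) (i : Po r) :
    ∏ l, al k t l (q l) (Sum.inl i) = t ^ (2 * num q * i 0) := by
  simp only [al]
  rw [Finset.prod_pow_eq_pow_sum]
  congr 1
  rw [num, Finset.mul_sum, Finset.sum_mul]

theorem be_inl {r : ℕ} (t : R) (q : Fin r → Fin 2) (c : Po r) :
    ∏ l, be t l (q l) (Sum.inl c) = t ^ (r * (4 * (2 ^ r) ^ 2) - 2 * num q * c 0) := by
  simp only [be]
  rw [Finset.prod_pow_eq_pow_sum]
  congr 1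
  have h1 : ∀ l : Fin r, 2 * ((q l : ℕ) * 2 ^ (l : ℕ)) * c 0 ≤ 4 * (2 ^ r) ^ 2 := by
    intro l
    have h2 : (q l : ℕ) ≤ 1 := by have := (q l).2; omega
    have h3 : 2 ^ (l : ℕ) ≤ 2 ^ r := Nat.pow_le_pow_right (by norm_num) l.2.le
    have h4 : (c 0 : ℕ) ≤ 2 * 2 ^ r := (c 0).2.le
    calc 2 * ((q l : ℕ) * 2 ^ (l : ℕ)) * c 0 ≤ 2 * (1 * 2 ^ r) * (2 * 2 ^ r) := by gcongr
      _ = 4 * (2 ^ r) ^ 2 := by ring
  have h5 : ∑ l : Fin r, (4 * (2 ^ r) ^ 2 - 2 * ((q l : ℕ) * 2 ^ (l : ℕ)) * c 0) +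
      ∑ l : Fin r, 2 * ((q l : ℕ) * 2 ^ (l : ℕ)) * c 0 = r * (4 * (2 ^ r) ^ 2) := by
    rw [← Finset.sum_add_distrib, Finset.sum_congr rfl fun l _ => Nat.sub_add_cancel (h1 l)]
    simp
  have h6 : ∑ l : Fin r, 2 * ((q l : ℕ) * 2 ^ (l : ℕ)) * c 0 = 2 * num q * c 0 := by
    rw [num, Finset.mul_sum, Finset.sum_mul]
  omega

theorem al_sum (k : ℕ) {r : ℕ} (t : R) (q : Fin r → Fin 2) (e : Fin r) :
    (∏ l, al k t l (q l) (Sum.inr (Sum.inl e))) + (∏ l, al k t l (q l) (Sum.inr (Sum.inr e))) =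
      t ^ (k * ((q e : ℕ) * 2 ^ (e : ℕ)) * num q) := by
  have hq : q e = 0 ∨ q e = 1 := by
    have := (q e).2
    rcases Nat.lt_or_ge (q e : ℕ) 1 with h | h
    · left; ext; simp; omega
    · right; ext; simp; omega
  rcases hq with hq | hq
  · have h1 : ∏ l, al k t l (q l) (Sum.inr (Sum.inl e)) = 1 := by
      refine Finset.prod_eq_one fun l _ => ?_
      simp only [al]
      rw [if_neg]
      rintro ⟨rfl, h⟩
      rw [hq] at h
      exact absurd h (by decide)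
    have h2 : ∏ l, al k t l (q l) (Sum.inr (Sum.inr e)) = 0 := by
      refine Finset.prod_eq_zero (Finset.mem_univ e) ?_
      simp only [al]
      rw [if_pos ⟨trivial, hq⟩]
    rw [h1, h2, hq]
    simp
  · have h1 : ∏ l, al k t l (q l) (Sum.inr (Sum.inl e)) = 0 := by
      refine Finset.prod_eq_zero (Finset.mem_univ e) ?_
      simp only [al]
      rw [if_pos ⟨trivial, hq⟩]
    have h2 : ∏ l, al k t l (q l) (Sum.inr (Sum.inr e)) = t ^ (k * 2 ^ (e : ℕ) * num q) := by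
      have h3 : ∀ l, al k t l (q l) (Sum.inr (Sum.inr e)) =
          t ^ (k * 2 ^ (e : ℕ) * ((q l : ℕ) * 2 ^ (l : ℕ))) := by
        intro l
        simp only [al]
        rw [if_neg]
        rintro ⟨rfl, h⟩
        rw [hq] at h
        exact absurd h (by decide)
      rw [Finset.prod_congr rfl fun l _ => h3 l, Finset.prod_pow_eq_pow_sum, num, Finset.mul_sum]
    rw [h1, h2, hq, zero_add]
    congr 1
    simp

theorem al_prod (k : ℕ) {r : ℕ} (t : R) (q : Fin r → Fin 2) :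
    ∏ e, ((∏ l, al k t l (q l) (Sum.inr (Sum.inl e))) +
      (∏ l, al k t l (q l) (Sum.inr (Sum.inr e)))) = (t ^ (num q ^ 2)) ^ k := by
  rw [Finset.prod_congr rfl fun e _ => al_sum k t q e, Finset.prod_pow_eq_pow_sum, ← pow_mul]
  congr 1
  rw [← Finset.sum_mul, ← Finset.mul_sum]
  show k * num q * num q = _
  ring

end pot

theorem state_pm {R : Type u} [CommRing R] [IsDomain R] {r k : ℕ} (hr : 0 < r) (t : R) (ht : t ≠ 0)
    (y : St r → St r → R) (q : Fin r → Fin 2) :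
    ∃ Z : R, pm (fr (k + r) (dm r (coreW (wR t y))) (fun p => ∏ l, al k t l (q l) p)
      (fun p => ∏ l, be t l (q l) p)) =
      (((k + 1).ascFactorial r : ℕ) : R) ^ 2 * 2 ^ r *
      (t ^ (k * (r * (4 * (2 ^ r) ^ 2))) * ((k ! : R) ^ 2 * es univ k (y (stE r q))) +
        t ^ (k * (r * (4 * (2 ^ r) ^ 2)) + 1) * Z) := by
  obtain ⟨Z, hZ⟩ := isoR k t ht (r * (4 * (2 ^ r) ^ 2)) (Nat.le_mul_of_pos_left _ hr) y (stE r q)
  refine ⟨Z, ?_⟩
  rw [dm_pm, al_prod]
  have hb : ∏ d : Fin r, ((∏ l, be t l (q l) (Sum.inr (Sum.inl d) : Po r ⊕ (Fin r ⊕ Fin r))) +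
      ∏ l, be t l (q l) (Sum.inr (Sum.inr d) : Po r ⊕ (Fin r ⊕ Fin r))) = (2 : R) ^ r := by
    have : ∀ d : Fin r, ((∏ l, be t l (q l) (Sum.inr (Sum.inl d) : Po r ⊕ (Fin r ⊕ Fin r))) +
      ∏ l, be t l (q l) (Sum.inr (Sum.inr d) : Po r ⊕ (Fin r ⊕ Fin r))) = (2 : R) := by
      intro d
      simp only [be, Finset.prod_const_one]
      norm_num
    rw [Finset.prod_congr rfl fun d _ => this d]
    simp
  rw [hb]
  have h1 : (t ^ (num q ^ 2)) ^ k * pm (fr k (coreW (wR t y))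
      (fun p => ∏ l, al k t l (q l) (Sum.inl p)) (fun p => ∏ l, be t l (q l) (Sum.inl p))) =
      pm (fr k (coreW (wR t y)) (fun i => ∏ l, t ^ ((stE r q l : ℕ) ^ 2 + 2 * (stE r q l : ℕ) * i l))
        (fun c => ∏ l, t ^ (r * (4 * (2 ^ r) ^ 2) - 2 * (stE r q l : ℕ) * c l))) := by
    rw [← fr_scale]
    congr 2
    · funext i
      rw [al_inl, ← pow_add]
      simp only [stE_apply, Finset.univ_unique, Finset.prod_singleton]
      rfl
    · funext c
      rw [be_inl]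
      simp only [stE_apply, Finset.univ_unique, Finset.prod_singleton]
      rfl
  have h2 : (((k + 1).ascFactorial r : ℕ) : R) ^ 2 * (t ^ (num q ^ 2)) ^ k * 2 ^ r *
      pm (fr k (coreW (wR t y))
      (fun p => ∏ l, al k t l (q l) (Sum.inl p)) (fun p => ∏ l, be t l (q l) (Sum.inl p))) =
      (((k + 1).ascFactorial r : ℕ) : R) ^ 2 * 2 ^ r * ((t ^ (num q ^ 2)) ^ k *
      pm (fr k (coreW (wR t y))
      (fun p => ∏ l, al k t l (q l) (Sum.inl p)) (fun p => ∏ l, be t l (q l) (Sum.inl p)))) := by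
    ring
  rw [h2, h1, hZ, one_mul]

section gad

variable {K : Type u} [Field K]

theorem ent_dm {V : Type} {ρ κ P : Type} (δ : ℕ)
    (A : ρ ⊕ P → κ ⊕ P → MvPolynomial V (PowerSeries K)) (hA : ∀ i j, Entry (A i j)) (i j) :
    Entry (dm δ A i j) := by
  rcases i with ((r | d) | (p | (d | d))) <;> rcases j with ((c | d') | (p' | (d' | d'))) <;>
    first
    | exact hA _ _
    | exact ent_zero
    | (show Entry (if _ then 1 else 0)
       split_ifs
       · exact ent_one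
       · exact ent_zero)

theorem ent_al {V : Type} (k : ℕ) {r : ℕ} (l : Fin r) (x : Fin 2) (p) :
    Entry (al k (C PowerSeries.X : MvPolynomial V (PowerSeries K)) l x p) := by
  rcases p with i | (e | e)
  · exact ent_pow _
  · show Entry (if _ then 0 else 1)
    split_ifs
    · exact ent_zero
    · exact ent_one
  · show Entry (if _ then 0 else _)
    split_ifs
    · exact ent_zero
    · exact ent_pow _

theorem ent_be {V : Type} {r : ℕ} (l : Fin r) (x : Fin 2) (p) :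
    Entry (be (C PowerSeries.X : MvPolynomial V (PowerSeries K)) l x p) := by
  rcases p with i | e
  · exact ent_pow _
  · exact ent_one

end gad

theorem sharp_gadget {K : Type u} [Field K] [CharZero K] {r k : ℕ} (hr : 0 < r)
    (hkm : k < 2 * 2 ^ r) {ζ : K} (hζ : IsPrimitiveRoot ζ (2 * 2 ^ r + 2 * r)) :
    ∃ (Row Col : Type) (_ : Fintype Row) (_ : DecidableEq Row) (_ : Fintype Col)
      (_ : DecidableEq Col)
      (A : Row → Col → MvPolynomial (St r × St r) (PowerSeries K))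
      (c : K) (L : ℕ)
      (Z : MvPolynomial (St r × St r) (PowerSeries K)),
      Fintype.card Row = 2 * 2 ^ r + r + r * (5 * (2 * 2 ^ r + 2 * r)) + (2 * 2 ^ r + 2 * r) +
        (k + r) ∧
      Fintype.card Col = 2 * 2 ^ r + r + r * (5 * (2 * 2 ^ r + 2 * r)) + (2 * 2 ^ r + 2 * r) +
        (k + r) ∧
      (∀ i j, Entry (A i j)) ∧ c ≠ 0 ∧
      pm A = C (PowerSeries.X ^ L) *
        (C (PowerSeries.C c) * dsum (St r) (St r) (PowerSeries K) k) +
        C (PowerSeries.X ^ (L + 1)) * Z := by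
  set R := MvPolynomial (St r × St r) (PowerSeries K) with hR
  set t : R := C PowerSeries.X with ht
  have ht0 : t ≠ 0 := by
    rw [ht, Ne, ← C_0, (C_injective _ _).eq_iff]
    exact PowerSeries.X_ne_zero
  set y : St r → St r → R := fun p i => X (p, i) with hy
  have hm : Fintype.card (Po r ⊕ (Fin r ⊕ Fin r)) = 2 * 2 ^ r + 2 * r := by
    simp only [Fintype.card_sum, Fintype.card_fun, Fintype.card_fin]
    ring
  have hm0 : Fintype.card (Po r ⊕ Fin r) = 2 * 2 ^ r + r := by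
    simp only [Fintype.card_sum, Fintype.card_fun, Fintype.card_fin]
    ring
  obtain ⟨ρ, κ, i1, i2, i3, i4, A, c, hc, hρ, hκ, hE, hpm⟩ :=
    multi (K := K) (R := R) (P := Po r ⊕ (Fin r ⊕ Fin r)) (ρ₀ := Po r ⊕ Fin r)
      (κ₀ := Po r ⊕ Fin r) (h := 2) (r := r) (k := k + r) (by omega) hm (by omega) hζ
      (fun x => Entry x)
      ent_zero ent_one ent_alg (dm r (coreW (wR t y))) (ent_dm r _ ent_core)
      (fun l x p => al k t l x p) (fun l x p => be t l x p)
      (fun _ _ _ => ent_al _ _ _ _) (fun _ _ _ => ent_be _ _ _)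
  have hiso := fun q : Fin r → Fin 2 => state_pm (k := k) hr t ht0 y q
  choose Z hZ using hiso
  refine ⟨(ρ ⊕ (Po r ⊕ (Fin r ⊕ Fin r))) ⊕ Fin (k + r), (κ ⊕ (Po r ⊕ (Fin r ⊕ Fin r))) ⊕ Fin (k + r),
    inferInstance, inferInstance, inferInstance, inferInstance,
    fr (k + r) A (fun _ => 1) (fun _ => 1),
    c * (((k + 1).ascFactorial r : ℕ) : K) ^ 2 * 2 ^ r * (k ! : K) ^ 2,
    k * (r * (4 * (2 ^ r) ^ 2)),
    algebraMap K R c * ((((k + 1).ascFactorial r : ℕ) : R) ^ 2 * 2 ^ r) * ∑ q, Z q, ?_, ?_, ?_, ?_, ?_⟩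
  · rw [Fintype.card_sum, Fintype.card_sum, hm, hρ, hm0, Fintype.card_fin]
    ring
  · rw [Fintype.card_sum, Fintype.card_sum, hm, hκ, hm0, Fintype.card_fin]
    ring
  · intro i j
    rcases i with (i | p) | v <;> rcases j with (j | p') | v'
    · exact hE _ _
    · exact hE _ _
    · exact ent_zero
    · exact hE _ _
    · exact hE _ _
    · exact ent_one
    · exact ent_zero
    · exact ent_one
    · exact ent_zero
  · have h1 : (k ! : K) ≠ 0 := by exact_mod_cast Nat.factorial_ne_zero k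
    have h2 : (((k + 1).ascFactorial r : ℕ) : K) ≠ 0 := by
      exact_mod_cast (Nat.ascFactorial_pos k r).ne'
    exact mul_ne_zero (mul_ne_zero (mul_ne_zero hc (pow_ne_zero _ h2)) (pow_ne_zero _ two_ne_zero))
      (pow_ne_zero _ h1)
  · rw [hpm]
    simp only [one_mul]
    rw [Finset.sum_congr rfl (fun q _ => hZ q), ← Finset.mul_sum, Finset.sum_add_distrib,
      ← Finset.mul_sum, ← Finset.mul_sum, ← Finset.mul_sum, map_pow, map_pow, ← ht]
    have h2 : (C (PowerSeries.C (c * (((k + 1).ascFactorial r : ℕ) : K) ^ 2 * 2 ^ r *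
        (k ! : K) ^ 2)) : R) = algebraMap K R c * (((k + 1).ascFactorial r : ℕ) : R) ^ 2 * 2 ^ r *
        (k ! : R) ^ 2 := by
      rw [← alg_eq]
      simp only [map_mul, map_pow, map_natCast, map_ofNat]
      rfl
    rw [h2]
    have h3 : dsum (St r) (St r) (PowerSeries K) k =
        ∑ q : Fin r → Fin 2, es univ k (y (stE r q)) := by
      rw [Equiv.sum_comp (stE r) fun q => es univ k (y q)]
      rfl
    rw [h3]
    ring

end Pool.Agent.H24.DcG
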