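import Pool.Agent.H24.DcG.Rem

/-!
Pairs of dummy rows and columns.
-/

set_option autoImplicit false

namespace Pool.Agent.H24.DcG

open Finset
open Pool.Agent.PerSL2 Pool.Agent.H72.Bp

universe u

/-- One-sided matrix with pairs of dummy columns. -/
def side {R : Type u} [CommRing R] {ρ κ : Type} (δ k' : ℕ) (G : ρ → κ → R) (g : κ → R)
    (a : Fin δ ⊕ Fin δ → R) : (ρ ⊕ Fin δ) ⊕ Fin k' → κ ⊕ (Fin δ ⊕ Fin δ) → R
  | Sum.inl (Sum.inl r), Sum.inl c => G r c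
  | Sum.inl (Sum.inl _), Sum.inr _ => 0
  | Sum.inl (Sum.inr _), Sum.inl _ => 0
  | Sum.inl (Sum.inr d), Sum.inr (Sum.inl d') => if d = d' then 1 else 0
  | Sum.inl (Sum.inr d), Sum.inr (Sum.inr d') => if d = d' then 1 else 0
  | Sum.inr _, Sum.inl c => g c
  | Sum.inr _, Sum.inr x => a x

/-- The base matrix with `k` source rows. -/
def src {R : Type u} [CommRing R] {ρ κ : Type} (k : ℕ) (G : ρ → κ → R) (g : κ → R) :
    ρ ⊕ Fin k → κ → R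
  | Sum.inl r, c => G r c
  | Sum.inr _, c => g c

/-- `(ρ ⊕ D) ⊕ S ≃ (ρ ⊕ S) ⊕ D` -/
def swE (ρ D S : Type) : (ρ ⊕ S) ⊕ D ≃ (ρ ⊕ D) ⊕ S where
  toFun := Sum.elim (Sum.elim (fun r => Sum.inl (Sum.inl r)) Sum.inr) fun d => Sum.inl (Sum.inr d)
  invFun := Sum.elim (Sum.elim (fun r => Sum.inl (Sum.inl r)) Sum.inr) fun d => Sum.inl (Sum.inr d)
  left_inv := by rintro ((r | s) | d) <;> rfl
  right_inv := by rintro ((r | s) | d) <;> rfl

theorem side_pm {R : Type u} [CommRing R] {ρ κ : Type} [Fintype ρ] [DecidableEq ρ] [Fintype κ]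
    [DecidableEq κ] (δ k : ℕ) (G : ρ → κ → R) (g : κ → R) (a : Fin δ ⊕ Fin δ → R) :
    pm (side δ (k + δ) G g a) = (((k + 1).ascFactorial δ : ℕ) : R) *
      (∏ d, (a (Sum.inl d) + a (Sum.inr d))) * pm (src k G g) := by
  rw [← pm_reindex (swE ρ (Fin δ) (Fin (k + δ))) (Equiv.refl _)]
  have h1 : (fun (r : (ρ ⊕ Fin (k + δ)) ⊕ Fin δ) (c : κ ⊕ (Fin δ ⊕ Fin δ)) =>
      side δ (k + δ) G g a (swE ρ (Fin δ) (Fin (k + δ)) r) ((Equiv.refl _) c)) =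
      mgM (src (k + δ) G g)
        (fun r d => Sum.elim (fun _ => 0) (fun _ => a (Sum.inl d)) r)
        (fun r d => Sum.elim (fun _ => 0) (fun _ => a (Sum.inr d)) r) (fun _ => 1) := by
    funext r c
    rcases r with ((r | s) | d) <;> rcases c with (c | (d' | d')) <;> rfl
  rw [h1, merge, rem_many k δ _ g (fun d => a (Sum.inl d) + a (Sum.inr d))]
  · congr 1
    congr 1
    funext r c
    rcases r with r | v <;> rfl
  · intro v c
    rfl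
  · intro r d
    simp [mgR]
  · intro v d
    simp [mgR, add_comm]

/-- The matrix with pairs of dummy rows and pairs of dummy columns. -/
def dm {R : Type u} [CommRing R] {ρ κ P : Type} (δ : ℕ) (A : ρ ⊕ P → κ ⊕ P → R) :
    (ρ ⊕ Fin δ) ⊕ (P ⊕ (Fin δ ⊕ Fin δ)) → (κ ⊕ Fin δ) ⊕ (P ⊕ (Fin δ ⊕ Fin δ)) → R
  | Sum.inl (Sum.inl r), Sum.inl (Sum.inl c) => A (Sum.inl r) (Sum.inl c)
  | Sum.inl (Sum.inl r), Sum.inr (Sum.inl p) => A (Sum.inl r) (Sum.inr p)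
  | Sum.inr (Sum.inl p), Sum.inl (Sum.inl c) => A (Sum.inr p) (Sum.inl c)
  | Sum.inr (Sum.inl p), Sum.inr (Sum.inl p') => A (Sum.inr p) (Sum.inr p')
  | Sum.inl (Sum.inr d), Sum.inr (Sum.inr (Sum.inl d')) => if d = d' then 1 else 0
  | Sum.inl (Sum.inr d), Sum.inr (Sum.inr (Sum.inr d')) => if d = d' then 1 else 0
  | Sum.inr (Sum.inr (Sum.inl d')), Sum.inl (Sum.inr d) => if d = d' then 1 else 0
  | Sum.inr (Sum.inr (Sum.inr d')), Sum.inl (Sum.inr d) => if d = d' then 1 else 0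
  | _, _ => 0

/-- The rows of the matrix with dummies. -/
def dmR (ρ P D S : Type) :
    (((ρ ⊕ P) ⊕ (D ⊕ D)) ⊕ D) ⊕ S ≃ ((ρ ⊕ D) ⊕ (P ⊕ (D ⊕ D))) ⊕ S where
  toFun
    | Sum.inl (Sum.inl (Sum.inl (Sum.inl r))) => Sum.inl (Sum.inl (Sum.inl r))
    | Sum.inl (Sum.inl (Sum.inl (Sum.inr p))) => Sum.inl (Sum.inr (Sum.inl p))
    | Sum.inl (Sum.inl (Sum.inr x)) => Sum.inl (Sum.inr (Sum.inr x))
    | Sum.inl (Sum.inr d) => Sum.inl (Sum.inl (Sum.inr d))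
    | Sum.inr s => Sum.inr s
  invFun
    | Sum.inl (Sum.inl (Sum.inl r)) => Sum.inl (Sum.inl (Sum.inl (Sum.inl r)))
    | Sum.inl (Sum.inr (Sum.inl p)) => Sum.inl (Sum.inl (Sum.inl (Sum.inr p)))
    | Sum.inl (Sum.inr (Sum.inr x)) => Sum.inl (Sum.inl (Sum.inr x))
    | Sum.inl (Sum.inl (Sum.inr d)) => Sum.inl (Sum.inr d)
    | Sum.inr s => Sum.inr s
  left_inv := by rintro ((((r | p) | x) | d) | s) <;> rfl
  right_inv := by rintro (((r | d) | (p | x)) | s) <;> rfl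

/-- The columns of the matrix with dummies. -/
def dmC (κ P D S : Type) :
    (((κ ⊕ P) ⊕ D) ⊕ S) ⊕ (D ⊕ D) ≃ ((κ ⊕ D) ⊕ (P ⊕ (D ⊕ D))) ⊕ S where
  toFun
    | Sum.inl (Sum.inl (Sum.inl (Sum.inl c))) => Sum.inl (Sum.inl (Sum.inl c))
    | Sum.inl (Sum.inl (Sum.inl (Sum.inr p))) => Sum.inl (Sum.inr (Sum.inl p))
    | Sum.inl (Sum.inl (Sum.inr d)) => Sum.inl (Sum.inl (Sum.inr d))
    | Sum.inl (Sum.inr s) => Sum.inr s
    | Sum.inr x => Sum.inl (Sum.inr (Sum.inr x))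
  invFun
    | Sum.inl (Sum.inl (Sum.inl c)) => Sum.inl (Sum.inl (Sum.inl (Sum.inl c)))
    | Sum.inl (Sum.inr (Sum.inl p)) => Sum.inl (Sum.inl (Sum.inl (Sum.inr p)))
    | Sum.inl (Sum.inl (Sum.inr d)) => Sum.inl (Sum.inl (Sum.inr d))
    | Sum.inr s => Sum.inl (Sum.inr s)
    | Sum.inl (Sum.inr (Sum.inr x)) => Sum.inr x
  left_inv := by rintro ((((c | p) | d) | s) | x) <;> rfl
  right_inv := by rintro (((c | d) | (p | x)) | s) <;> rfl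

/-- The base matrix of the first application. -/
def dmG {R : Type u} [CommRing R] {ρ κ P : Type} (δ k' : ℕ) (A : ρ ⊕ P → κ ⊕ P → R) (b : P → R)
    (b' : Fin δ ⊕ Fin δ → R) :
    (ρ ⊕ P) ⊕ (Fin δ ⊕ Fin δ) → ((κ ⊕ P) ⊕ Fin δ) ⊕ Fin k' → R
  | Sum.inl (Sum.inl r), Sum.inl (Sum.inl c) => A (Sum.inl r) c
  | Sum.inl (Sum.inr p), Sum.inl (Sum.inl c) => A (Sum.inr p) c
  | Sum.inl (Sum.inl _), Sum.inl (Sum.inr _) => 0
  | Sum.inl (Sum.inr _), Sum.inl (Sum.inr _) => 0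
  | Sum.inl (Sum.inl _), Sum.inr _ => 0
  | Sum.inl (Sum.inr p), Sum.inr _ => b p
  | Sum.inr (Sum.inl d'), Sum.inl (Sum.inr d) => if d = d' then 1 else 0
  | Sum.inr (Sum.inr d'), Sum.inl (Sum.inr d) => if d = d' then 1 else 0
  | Sum.inr _, Sum.inl (Sum.inl _) => 0
  | Sum.inr x, Sum.inr _ => b' x

/-- The content of the source rows. -/
def dmg {R : Type u} [CommRing R] (κ : Type) {P : Type} (δ k' : ℕ) (a : P → R) :
    ((κ ⊕ P) ⊕ Fin δ) ⊕ Fin k' → R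
  | Sum.inl (Sum.inl (Sum.inl _)) => 0
  | Sum.inl (Sum.inl (Sum.inr p)) => a p
  | Sum.inl (Sum.inr _) => 0
  | Sum.inr _ => 0

theorem dm_first {R : Type u} [CommRing R] {ρ κ P : Type} [Fintype ρ] [DecidableEq ρ] [Fintype κ]
    [DecidableEq κ] [Fintype P] [DecidableEq P] (δ k : ℕ) (A : ρ ⊕ P → κ ⊕ P → R)
    (a b : P ⊕ (Fin δ ⊕ Fin δ) → R) :
    pm (fr (k + δ) (dm δ A) a b) = pm (side δ (k + δ)
      (dmG δ (k + δ) A (fun p => b (Sum.inl p)) (fun x => b (Sum.inr x)))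
      (dmg κ δ (k + δ) fun p => a (Sum.inl p)) (fun x => a (Sum.inr x))) := by
  rw [← pm_reindex (dmR ρ P (Fin δ) (Fin (k + δ))) (dmC κ P (Fin δ) (Fin (k + δ)))]
  congr 1
  funext r c
  rcases r with ((((r | p) | (d | d)) | d) | s) <;>
    rcases c with ((((c | p') | d') | s') | (d' | d')) <;> rfl

/-- `((κ ⊕ D) ⊕ S) ≃` for the second application: rows -/
theorem dm_second {R : Type u} [CommRing R] {ρ κ P : Type} [Fintype ρ] [DecidableEq ρ] [Fintype κ]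
    [DecidableEq κ] [Fintype P] [DecidableEq P] (δ k : ℕ) (A : ρ ⊕ P → κ ⊕ P → R)
    (a b : P → R) (b' : Fin δ ⊕ Fin δ → R) :
    pm (src k (dmG δ (k + δ) A b b') (dmg κ δ (k + δ) a)) =
      pm (side δ (k + δ) (fun (c : κ ⊕ P) (r : (ρ ⊕ P) ⊕ Fin k) =>
        Sum.elim (fun r' => A r' c) (fun _ => Sum.elim (fun _ => 0) a c) r)
        (fun (r : (ρ ⊕ P) ⊕ Fin k) => Sum.elim (Sum.elim (fun _ => 0) b) (fun _ => 0) r) b') := by
  rw [← pm_transpose, ← pm_reindex (Equiv.refl (((κ ⊕ P) ⊕ Fin δ) ⊕ Fin (k + δ)))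
    (swE (ρ ⊕ P) (Fin δ ⊕ Fin δ) (Fin k))]
  congr 1
  funext c r
  rcases r with (((r | p) | s) | (d | d)) <;>
    rcases c with (((c | p') | d') | s') <;> rfl

theorem dm_pm {R : Type u} [CommRing R] {ρ κ P : Type} [Fintype ρ] [DecidableEq ρ] [Fintype κ]
    [DecidableEq κ] [Fintype P] [DecidableEq P] (δ k : ℕ) (A : ρ ⊕ P → κ ⊕ P → R)
    (a b : P ⊕ (Fin δ ⊕ Fin δ) → R) :
    pm (fr (k + δ) (dm δ A) a b) = (((k + 1).ascFactorial δ : ℕ) : R) ^ 2 *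
      (∏ d, (a (Sum.inr (Sum.inl d)) + a (Sum.inr (Sum.inr d)))) *
      (∏ d, (b (Sum.inr (Sum.inl d)) + b (Sum.inr (Sum.inr d)))) *
      pm (fr k A (fun p => a (Sum.inl p)) (fun p => b (Sum.inl p))) := by
  rw [dm_first, side_pm, dm_second, side_pm]
  have h1 : pm (src k (fun (c : κ ⊕ P) (r : (ρ ⊕ P) ⊕ Fin k) =>
        Sum.elim (fun r' => A r' c) (fun _ => Sum.elim (fun _ => 0) (fun p => a (Sum.inl p)) c) r)
        (fun (r : (ρ ⊕ P) ⊕ Fin k) =>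
          Sum.elim (Sum.elim (fun _ => 0) (fun p => b (Sum.inl p))) (fun _ => 0) r)) =
      pm (fr k A (fun p => a (Sum.inl p)) (fun p => b (Sum.inl p))) := by
    rw [← pm_transpose]
    congr 1
    funext r c
    rcases r with ((r | p) | s) <;> rcases c with ((c | p') | s') <;> rfl
  rw [h1]
  ring

end Pool.Agent.H24.DcG
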