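import Pool.Agent.H24.DcG.Core
import Pool.Agent.H24.DcG.Asy
import Pool.Agent.H72.Dc.Fin

/-!
# The determinantal complexity of the permanent, sharp version
-/

set_option autoImplicit false

namespace Pool.Agent.H24.DcG

open MvPolynomial Finset
open Pool.Agent.H10.PerSL (perPoly)
open Pool.Agent.H61.BD (DetLE BorderDetLE)
open Pool.Agent.H72.Dc

universe u

theorem border_pos {n : ℕ} (hn : 1 ≤ n) {k : Type u} [Field k] :
    ¬ BorderDetLE (perPoly n k) 0 := by
  rintro ⟨F, hF, A, -, hA⟩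
  rw [Matrix.det_fin_zero] at hA
  obtain ⟨P, Q, hQ, h1, h2⟩ := hF 0
  have h3 : coeff 0 (perPoly n k) = 0 := by
    have : Nonempty (Fin n) := ⟨⟨0, hn⟩⟩
    rw [← constantCoeff_eq, perPoly, Matrix.permanent, map_sum]
    refine Finset.sum_eq_zero fun σ _ => ?_
    rw [map_prod]
    refine Finset.prod_eq_zero (Finset.mem_univ (Classical.arbitrary (Fin n))) ?_
    simp
  rw [h3] at h2
  rw [← hA] at h1
  have h4 : P = Q := by
    have hQ0 : algebraMap (Polynomial k) (RatFunc k) Q ≠ 0 := by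
      rw [Ne, map_eq_zero_iff _ (RatFunc.algebraMap_injective k)]
      rintro rfl
      simp at hQ
    rw [coeff_zero_one, eq_div_iff hQ0, one_mul] at h1
    exact (RatFunc.algebraMap_injective k h1).symm
  rw [h4, div_self hQ] at h2
  exact zero_ne_one h2

theorem final_N {n : ℕ} (hn : 2 ≤ n) (k : Type u) [Field k] [CharZero k] (s : ℕ)
    (hs : DetLE (perPoly n k) s ∨ BorderDetLE (perPoly n k) s) :
    n ^ 3 ≤ 10 ^ 7 * (Nat.log 2 n) ^ 3 * s := by
  have hs' : BorderDetLE (perPoly n k) s := hs.elim DetLE.toBorder id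
  rcases Nat.lt_or_ge n 2048 with h | h
  · refine small_nat hn h (Nat.one_le_iff_ne_zero.2 ?_)
    rintro rfl
    exact border_pos (by omega) hs'
  · obtain ⟨r, h1, h2, h3, h4⟩ := choose_r n h
    have h5 : 2 ^ r = 32 * 2 ^ (r - 5) := by
      obtain ⟨q, rfl⟩ := Nat.exists_eq_add_of_le h1
      rw [Nat.add_sub_cancel_left, pow_add]
      norm_num
    have h6 : 2 ^ r = 2 * (16 * 2 ^ (r - 5)) := by rw [h5]; ring
    have h7 : 2 ^ r / 2 = 16 * 2 ^ (r - 5) := by omega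
    have hpos : 0 < 2 ^ (r - 5) := by positivity
    rw [sz, h7] at h2
    obtain ⟨cnt, g1, g2⟩ := core (by omega) (by positivity) h6 h2 k s hs'
    refine final_nat h3 h4 (asy_main hpos (cnt := cnt) ?_ ?_)
    · have e1 : 2 * (16 * 2 ^ (r - 5)) = 32 * 2 ^ (r - 5) := by ring
      rwa [e1] at g1
    · have e1 : 2 * (16 * 2 ^ (r - 5)) = 32 * 2 ^ (r - 5) := by ring
      rwa [e1] at g2

theorem final {n : ℕ} (hn : 2 ≤ n) (k : Type u) [Field k] [CharZero k] (s : ℕ)
    (hs : DetLE (perPoly n k) s ∨ BorderDetLE (perPoly n k) s) :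
    (n : ℝ) ^ 3 / (10 ^ 7 * (Real.logb 2 n) ^ 3) ≤ s := by
  have h := final_N hn k s hs
  have h1 : (Nat.log 2 n : ℝ) ≤ Real.logb 2 n := by
    have := Real.natLog_le_logb n 2
    exact_mod_cast this
  have h0 : 1 ≤ Nat.log 2 n := Nat.le_log_of_pow_le (by norm_num) (by simpa using hn)
  have h0' : (1 : ℝ) ≤ Nat.log 2 n := by exact_mod_cast h0
  have h2 : (0 : ℝ) < Real.logb 2 n := by linarith
  rw [div_le_iff₀ (by positivity)]
  have h3 : (n : ℝ) ^ 3 ≤ 10 ^ 7 * (Nat.log 2 n : ℝ) ^ 3 * s := by exact_mod_cast h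
  refine h3.trans ?_
  calc 10 ^ 7 * (Nat.log 2 n : ℝ) ^ 3 * s ≤ 10 ^ 7 * (Real.logb 2 n) ^ 3 * s := by gcongr
    _ = s * (10 ^ 7 * Real.logb 2 n ^ 3) := by ring

end Pool.Agent.H24.DcG
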