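import Pool.Agent.H72.Bp.Mer
import Pool.Agent.PerSL2.Pm

/-!
Removing columns which are constant on the source rows and zero elsewhere, and the effect of pairs
of columns exactly one of which must be used by a source row.
-/

set_option autoImplicit false

namespace Pool.Agent.H24.DcG

open Finset
open Pool.Agent.PerSL2 Pool.Agent.H72.Bp

universe u

section

variable {R : Type u} [CommRing R] {ρ κ : Type} [Fintype ρ] [DecidableEq ρ] [Fintype κ]
  [DecidableEq κ]

theorem pm_col_sum {V : Type} [Fintype V] (A : ρ → κ ⊕ Unit → R) (B : V → ρ → R)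
    (h : ∀ r, A r (Sum.inr ()) = ∑ v, B v r) :
    pm A = ∑ v, pm (fun r (c : κ ⊕ Unit) => Sum.elim (fun c' => A r (Sum.inl c')) (fun _ => B v r) c) := by
  unfold pm
  rw [Finset.sum_comm]
  refine Finset.sum_congr rfl fun σ _ => ?_
  rw [Fintype.prod_sum_type]
  simp only [Fintype.prod_sum_type, Sum.elim_inl, Sum.elim_inr, Fintype.prod_unique]
  rw [← Finset.mul_sum]
  congr 1
  exact h _

/-- The rows, with the row `v` in front. -/
noncomputable def rowE (ρ : Type) [Fintype ρ] {k : ℕ} (v : Fin (k + 1)) :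
    Unit ⊕ (ρ ⊕ Fin k) ≃ ρ ⊕ Fin (k + 1) :=
  Equiv.ofBijective (Sum.elim (fun _ => Sum.inr v)
    (Sum.elim Sum.inl fun w => Sum.inr (v.succAbove w))) <| by
    rw [Fintype.bijective_iff_injective_and_card]
    constructor
    · rintro (x | x | x) (y | y | y) h
      · rfl
      · simp at h
      · exact absurd (Sum.inr_injective h).symm (Fin.succAbove_ne v y)
      · simp at h
      · simpa using h
      · simp at h
      · exact absurd (Sum.inr_injective h) (Fin.succAbove_ne v x)
      · simp at h
      · have h' := Fin.succAbove_right_injective (Sum.inr_injective h)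
        rw [h']
    · simp only [Fintype.card_sum, Fintype.card_fin, Fintype.card_unit]
      omega

theorem rem_one (k : ℕ) (A : ρ ⊕ Fin (k + 1) → κ ⊕ Unit → R) (g : κ → R) (s : R)
    (h1 : ∀ v c, A (Sum.inr v) (Sum.inl c) = g c) (h2 : ∀ r, A (Sum.inl r) (Sum.inr ()) = 0)
    (h3 : ∀ v, A (Sum.inr v) (Sum.inr ()) = s) :
    pm A = ((k + 1 : ℕ) : R) * s *
      pm (fun (r : ρ ⊕ Fin k) c => Sum.elim (fun r' => A (Sum.inl r') (Sum.inl c)) (fun _ => g c) r) := by
  rw [pm_col_sum A (fun (v : Fin (k + 1)) r => Sum.elim (fun _ => 0)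
    (fun v' => if v' = v then s else 0) r)]
  · have key : ∀ v : Fin (k + 1), pm (fun (r : ρ ⊕ Fin (k + 1)) (c : κ ⊕ Unit) =>
        Sum.elim (fun c' => A r (Sum.inl c')) (fun _ => Sum.elim (fun _ => (0 : R))
          (fun v' => if v' = v then s else 0) r) c) = s *
        pm (fun (r : ρ ⊕ Fin k) c => Sum.elim (fun r' => A (Sum.inl r') (Sum.inl c))
          (fun _ => g c) r) := by
      intro v
      rw [← pm_reindex (rowE ρ v) (Equiv.sumComm Unit κ), pm_block _ (by simp)]
      · congr 1
        · simp [pm, rowE]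
        · congr 1
          funext r c
          rcases r with r | w
          · simp [rowE]
          · simp [rowE, h1]
      · rintro (r | w) c
        · simp [rowE]
        · simp [rowE, Fin.succAbove_ne]
    rw [Finset.sum_congr rfl fun v _ => key v, Finset.sum_const, Finset.card_univ, Fintype.card_fin,
      nsmul_eq_mul, mul_assoc]
  · rintro (r | v)
    · simp [h2]
    · simp [h3]

/-- The columns, with the last one separated. -/
def colE (κ : Type) (δ : ℕ) : (κ ⊕ Fin δ) ⊕ Unit ≃ κ ⊕ Fin (δ + 1) where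
  toFun := Sum.elim (Sum.elim Sum.inl fun d => Sum.inr (Fin.castSucc d)) fun _ => Sum.inr (Fin.last δ)
  invFun := Sum.elim (fun c => Sum.inl (Sum.inl c))
    (Fin.lastCases (Sum.inr ()) fun d => Sum.inl (Sum.inr d))
  left_inv := by
    rintro ((c | d) | u) <;> simp
  right_inv := by
    rintro (c | d)
    · simp
    · refine Fin.lastCases ?_ (fun d => ?_) d <;> simp

theorem rem_many (k δ : ℕ) (A : ρ ⊕ Fin (k + δ) → κ ⊕ Fin δ → R) (g : κ → R) (s : Fin δ → R)
    (h1 : ∀ v c, A (Sum.inr v) (Sum.inl c) = g c) (h2 : ∀ r d, A (Sum.inl r) (Sum.inr d) = 0)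
    (h3 : ∀ v d, A (Sum.inr v) (Sum.inr d) = s d) :
    pm A = (((k + 1).ascFactorial δ : ℕ) : R) * (∏ d, s d) *
      pm (fun (r : ρ ⊕ Fin k) c => Sum.elim (fun r' => A (Sum.inl r') (Sum.inl c)) (fun _ => g c) r) := by
  induction δ with
  | zero =>
    rw [← pm_reindex (Equiv.refl (ρ ⊕ Fin (k + 0))) (Equiv.sumEmpty κ (Fin 0)).symm]
    simp only [Nat.ascFactorial_zero, Nat.cast_one, Finset.univ_eq_empty, Finset.prod_empty, mul_one,
      one_mul]
    congr 1
    funext r c
    rcases r with r | v
    · rfl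
    · simpa using h1 v c
  | succ δ ih =>
    rw [← pm_reindex (Equiv.refl (ρ ⊕ Fin (k + (δ + 1)))) (colE κ δ)]
    simp only [Equiv.refl_apply]
    rw [rem_one (k + δ) _ (Sum.elim g (fun d => s (Fin.castSucc d))) (s (Fin.last δ))]
    · rw [ih (fun r c => Sum.elim (fun r' => A (Sum.inl r') (colE κ δ (Sum.inl c)))
          (fun _ => Sum.elim g (fun d => s (Fin.castSucc d)) c) r) (fun d => s (Fin.castSucc d))]
      · rw [Fin.prod_univ_castSucc, Nat.ascFactorial_succ]
        simp only [Sum.elim_inl, colE, Equiv.coe_fn_mk]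
        push_cast
        ring
      · intro v c
        simp
      · intro r d
        simp [colE, h2]
      · intro v d
        simp
    · rintro v (c | d)
      · simp [colE, h1]
      · simp [colE, h3]
    · intro r
      simp [colE, h2]
    · intro v
      simp [colE, h3]

end

end Pool.Agent.H24.DcG
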